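import Mathlib

set_option autoImplicit false

namespace Pool.Agent.H700R3.CosetStability

open Finset

theorem exists_perm_pair {n : ℕ} (j k j' k' : Fin n) (h : j ≠ k) (h' : j' ≠ k') :
    ∃ τ : Equiv.Perm (Fin n), τ j = j' ∧ τ k = k' := by
  refine ⟨Equiv.swap (Equiv.swap j j' k) k' * Equiv.swap j j', ?_, ?_⟩
  · rw [Equiv.Perm.mul_apply, Equiv.swap_apply_left]
    apply Equiv.swap_apply_of_ne_of_ne
    · intro hcon
      have h1 : Equiv.swap j j' j = Equiv.swap j j' k := by
        rw [Equiv.swap_apply_left]; exact hcon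
      exact h ((Equiv.swap j j').injective h1)
    · exact h'
  · rw [Equiv.Perm.mul_apply, Equiv.swap_apply_left]

theorem count_pair {n : ℕ} (i i' : Fin n) (hi : i ≠ i') (j k : Fin n) (hjk : j ≠ k) :
    (univ.filter (fun σ : Equiv.Perm (Fin n) => σ i = j ∧ σ i' = k)).card * (n * (n - 1))
      = n.factorial := by
  classical
  have hmap : ∀ σ ∈ (univ : Finset (Equiv.Perm (Fin n))),
      (fun σ : Equiv.Perm (Fin n) => (σ i, σ i')) σ ∈ (univ : Finset (Fin n)).offDiag := by
    intro σ _
    rw [Finset.mem_offDiag]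
    exact ⟨mem_univ _, mem_univ _, fun h => hi (σ.injective h)⟩
  have h1 := Finset.card_eq_sum_card_fiberwise hmap
  have h2 : ∀ p ∈ (univ : Finset (Fin n)).offDiag,
      (univ.filter (fun σ : Equiv.Perm (Fin n) => (σ i, σ i') = p)).card
        = (univ.filter (fun σ : Equiv.Perm (Fin n) => σ i = j ∧ σ i' = k)).card := by
    rintro ⟨a, b⟩ hp
    rw [Finset.mem_offDiag] at hp
    obtain ⟨τ, h3, h4⟩ := exists_perm_pair a b j k hp.2.2 hjk
    apply Finset.card_bij (fun σ _ => τ * σ)
    · intro σ hσ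
      simp only [Finset.mem_filter, Finset.mem_univ, true_and, Prod.mk.injEq] at hσ ⊢
      rw [Equiv.Perm.mul_apply, Equiv.Perm.mul_apply, hσ.1, hσ.2]
      exact ⟨h3, h4⟩
    · intro σ _ σ' _ heq
      exact mul_left_cancel heq
    · intro σ hσ
      simp only [Finset.mem_filter, Finset.mem_univ, true_and] at hσ
      refine ⟨τ⁻¹ * σ, ?_, by simp⟩
      simp only [Finset.mem_filter, Finset.mem_univ, true_and, Prod.mk.injEq]
      rw [Equiv.Perm.mul_apply, Equiv.Perm.mul_apply, hσ.1, hσ.2, ← h3, ← h4]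
      simp
  rw [Finset.sum_congr rfl h2, Finset.sum_const, Finset.offDiag_card, smul_eq_mul] at h1
  simp only [Finset.card_univ, Fintype.card_perm, Fintype.card_fin] at h1
  rw [h1, mul_comm]
  congr 1
  cases n with
  | zero => simp
  | succ n =>
    simp [Nat.succ_mul]
    ring

theorem count_single {n : ℕ} (i : Fin n) (j : Fin n) :
    (univ.filter (fun σ : Equiv.Perm (Fin n) => σ i = j)).card * n = n.factorial := by
  classical
  have hmap : ∀ σ ∈ (univ : Finset (Equiv.Perm (Fin n))),
      (fun σ : Equiv.Perm (Fin n) => σ i) σ ∈ (univ : Finset (Fin n)) := by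
    intro σ _
    exact mem_univ _
  have h1 := Finset.card_eq_sum_card_fiberwise hmap
  have h2 : ∀ p ∈ (univ : Finset (Fin n)),
      (univ.filter (fun σ : Equiv.Perm (Fin n) => σ i = p)).card
        = (univ.filter (fun σ : Equiv.Perm (Fin n) => σ i = j)).card := by
    intro a _
    apply Finset.card_bij (fun σ _ => Equiv.swap a j * σ)
    · intro σ hσ
      simp only [Finset.mem_filter, Finset.mem_univ, true_and] at hσ ⊢
      rw [Equiv.Perm.mul_apply, hσ, Equiv.swap_apply_left]
    · intro σ _ σ' _ heq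
      exact mul_left_cancel heq
    · intro σ hσ
      simp only [Finset.mem_filter, Finset.mem_univ, true_and] at hσ
      refine ⟨Equiv.swap a j * σ, ?_, by simp [← mul_assoc]⟩
      simp only [Finset.mem_filter, Finset.mem_univ, true_and]
      rw [Equiv.Perm.mul_apply, hσ, Equiv.swap_apply_right]
  rw [Finset.sum_congr rfl h2, Finset.sum_const, smul_eq_mul] at h1
  simp only [Finset.card_univ, Fintype.card_perm, Fintype.card_fin] at h1
  rw [h1, mul_comm]

theorem count_single_set {n : ℕ} (i : Fin n) (J : Finset (Fin n)) :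
    (univ.filter (fun σ : Equiv.Perm (Fin n) => σ i ∈ J)).card * n = J.card * n.factorial := by
  classical
  have hmap : ∀ σ ∈ univ.filter (fun σ : Equiv.Perm (Fin n) => σ i ∈ J),
      (fun σ : Equiv.Perm (Fin n) => σ i) σ ∈ J := by
    intro σ hσ
    simpa using hσ
  rw [Finset.card_eq_sum_card_fiberwise hmap, Finset.sum_mul]
  have : ∀ j ∈ J, ((univ.filter (fun σ : Equiv.Perm (Fin n) => σ i ∈ J)).filter
      (fun σ : Equiv.Perm (Fin n) => σ i = j)).card * n = n.factorial := by
    intro j hj
    rw [← count_single i j]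
    congr 2
    ext σ
    simp only [Finset.mem_filter, Finset.mem_univ, true_and]
    constructor
    · rintro ⟨_, h⟩; exact h
    · intro h; exact ⟨by rw [h]; exact hj, h⟩
  rw [Finset.sum_congr rfl this, Finset.sum_const, smul_eq_mul]

theorem count_pair_set {n : ℕ} (i i' : Fin n) (hi : i ≠ i') (J K : Finset (Fin n))
    (hJK : Disjoint J K) :
    (univ.filter (fun σ : Equiv.Perm (Fin n) => σ i ∈ J ∧ σ i' ∈ K)).card * (n * (n - 1))
      = J.card * K.card * n.factorial := by
  classical
  have hmap : ∀ σ ∈ univ.filter (fun σ : Equiv.Perm (Fin n) => σ i ∈ J ∧ σ i' ∈ K),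
      (fun σ : Equiv.Perm (Fin n) => (σ i, σ i')) σ ∈ J ×ˢ K := by
    intro σ hσ
    simpa using hσ
  rw [Finset.card_eq_sum_card_fiberwise hmap, Finset.sum_mul]
  have : ∀ p ∈ J ×ˢ K, ((univ.filter (fun σ : Equiv.Perm (Fin n) => σ i ∈ J ∧ σ i' ∈ K)).filter
      (fun σ : Equiv.Perm (Fin n) => (σ i, σ i') = p)).card * (n * (n - 1)) = n.factorial := by
    rintro ⟨j, k⟩ hp
    rw [Finset.mem_product] at hp
    have hjk : j ≠ k := by
      intro h
      simp only at hp
      rw [h] at hp
      exact (Finset.disjoint_left.mp hJK) hp.1 hp.2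
    rw [← count_pair i i' hi j k hjk]
    congr 2
    ext σ
    simp only [Finset.mem_filter, Finset.mem_univ, true_and, Prod.mk.injEq]
    constructor
    · rintro ⟨_, h⟩; exact h
    · intro h; exact ⟨by rw [h.1, h.2]; exact hp, h⟩
  rw [Finset.sum_congr rfl this, Finset.sum_const, smul_eq_mul, Finset.card_product]

end Pool.Agent.H700R3.CosetStability
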