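import Mathlib

/-!
# Coverings of a group by translates of `A A⁻¹`

There is a 4-colouring of the free group of countable rank such that for every colour class `A`
and every set `F` of at most four elements, `F * A * A⁻¹` is not the whole group.

The colouring is found by compactness.  The finite statement is proved by induction on the number
of constraints: `(z, k)` stands for: `of k * z` and the elements `e⁻¹ * z` (`e ∈ E k`) are not of
colour `I k` at the same time, where `E k` only uses the first `k` generators.  The hypothesis of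
the induction is that a finite set `D` of forbidden (element, colour) pairs can be met whenever
`|D| + (number of colours in D) ≤ 7`.
-/

set_option autoImplicit false

namespace Pool.Agent.H700R3.CoverAAInv

open FreeGroup

/-- The reduced word of `h` ends with the generator `K`. -/
def side (K : ℕ) (h : FreeGroup ℕ) : Prop := h.toWord.getLast? = some (K, true)

lemma side_of_mul (K k : ℕ) (h : FreeGroup ℕ) (hk : ¬ (k = K ∧ h = 1)) :
    side K (of k * h) ↔ side K h := by
  unfold side
  rw [toWord_mul, toWord_of, List.singleton_append, reduce.cons, reduce_toWord]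
  rcases hw : h.toWord with _ | ⟨⟨y, b⟩, L⟩
  · have h1 : h = 1 := toWord_eq_nil_iff.mp hw
    have hkK : k ≠ K := fun e => hk ⟨e, h1⟩
    simp [hkK]
  · simp only
    split_ifs with hc
    · rcases L with _ | ⟨p, L'⟩
      · obtain ⟨h1, h2⟩ := hc
        have hb : b = false := by
          cases b
          · rfl
          · simp at h2
        subst hb
        simp
      · simp [List.getLast?_cons_cons]
    · simp [List.getLast?_cons_cons]

lemma side_closure (K : ℕ) (e : FreeGroup ℕ)
    (he : e ∈ Subgroup.closure (of '' {j : ℕ | j < K})) :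
    ∀ h, side K (e * h) ↔ side K h := by
  induction he using Subgroup.closure_induction with
  | mem x hx =>
    obtain ⟨j, hj, rfl⟩ := hx
    intro h
    exact side_of_mul K j h (fun hh => by
      have : j < K := hj
      omega)
  | one => intro h; simp
  | mul x y _ _ hx hy =>
    intro h
    rw [mul_assoc, hx, hy]
  | inv x _ hx =>
    intro h
    rw [← hx (x⁻¹ * h)]
    simp

theorem finite_sat (E : ℕ → Finset (FreeGroup ℕ)) (I : ℕ → Fin 4)
    (hE : ∀ k, ∀ e ∈ E k, e ∈ Subgroup.closure (of '' {j : ℕ | j < k}))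
    (hcard : ∀ k, (E k).card ≤ 4) :
    ∀ (n : ℕ) (S : Finset (FreeGroup ℕ × ℕ)), S.card = n →
      ∀ D : Finset (FreeGroup ℕ × Fin 4), D.card + (D.image Prod.snd).card ≤ 7 →
      ∃ c : FreeGroup ℕ → Fin 4,
        (∀ p ∈ S, c (of p.2 * p.1) = I p.2 → ∀ e ∈ E p.2, c (e⁻¹ * p.1) ≠ I p.2) ∧
        ∀ p ∈ D, c p.1 ≠ p.2 := by
  classical
  intro n
  induction n with
  | zero =>
    intro S hS D hD
    have hS0 : S = ∅ := Finset.card_eq_zero.mp hS
    subst hS0
    have key : ∀ g : FreeGroup ℕ, ∃ j : Fin 4, (g, j) ∉ D := by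
      intro g
      by_contra hcon
      push Not at hcon
      have h1 : (Finset.univ : Finset (Fin 4)).card ≤ D.card := by
        apply Finset.card_le_card_of_injOn (fun j => (g, j))
        · intro j _
          exact hcon j
        · intro a _ b _ hab
          simpa using hab
      have h2 : (D.image Prod.snd) = Finset.univ := by
        ext j
        simp only [Finset.mem_image, Finset.mem_univ, iff_true]
        exact ⟨(g, j), hcon j, rfl⟩
      rw [h2] at hD
      simp at h1 hD
      omega
    choose c hc using key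
    refine ⟨c, by simp, ?_⟩
    rintro ⟨g, j⟩ hp heq
    simp only at heq
    apply hc g
    rw [heq]
    exact hp
  | succ n ih =>
    intro S hS D hD
    have hne : S.Nonempty := by
      rw [← Finset.card_pos]; omega
    obtain ⟨⟨z, K⟩, hzK, hmax⟩ := Finset.exists_max_image S Prod.snd hne
    simp only at hmax
    set S' := S.erase (z, K) with hS'
    have hS'card : S'.card = n := by
      rw [hS', Finset.card_erase_of_mem hzK]; omega
    set Dy := D.filter (fun p => side K (p.1 * z⁻¹)) with hDy
    set DE := D.filter (fun p => ¬ side K (p.1 * z⁻¹)) with hDE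
    have hsplit : Dy.card + DE.card = D.card := Finset.card_filter_add_card_filter_not _
    have hcolDy : (Dy.image Prod.snd).card ≤ (D.image Prod.snd).card :=
      Finset.card_le_card (Finset.image_subset_image (Finset.filter_subset _ _))
    have hcolDE : (DE.image Prod.snd).card ≤ (D.image Prod.snd).card :=
      Finset.card_le_card (Finset.image_subset_image (Finset.filter_subset _ _))
    -- side facts
    have hsy : side K (of K * z * z⁻¹) := by
      simp [side]
    have hsz : ¬ side K (z * z⁻¹) := by
      simp [side]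
    have hclos : ∀ k ≤ K, ∀ e ∈ E k, ∀ g : FreeGroup ℕ,
        side K (e⁻¹ * g * z⁻¹) ↔ side K (g * z⁻¹) := by
      intro k hk e he g
      rw [mul_assoc]
      apply side_closure
      apply Subgroup.inv_mem
      refine Subgroup.closure_mono ?_ (hE k e he)
      apply Set.image_mono
      intro j hj
      have : j < k := hj
      show j < K
      omega
    have hstep : ∀ p ∈ S', side K (of p.2 * p.1 * z⁻¹) ↔ side K (p.1 * z⁻¹) := by
      rintro ⟨g, k⟩ hp
      rw [mul_assoc]
      apply side_of_mul
      rintro ⟨h1, h2⟩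
      simp only at h1 h2
      have h3 : g = z := by
        rwa [mul_inv_eq_one] at h2
      subst h1 h3
      simp [hS'] at hp
    -- gluing
    have glue : ∀ c1 c2 : FreeGroup ℕ → Fin 4,
        (∀ p ∈ S', c1 (of p.2 * p.1) = I p.2 → ∀ e ∈ E p.2, c1 (e⁻¹ * p.1) ≠ I p.2) →
        (∀ p ∈ S', c2 (of p.2 * p.1) = I p.2 → ∀ e ∈ E p.2, c2 (e⁻¹ * p.1) ≠ I p.2) →
        (∀ p ∈ Dy, c1 p.1 ≠ p.2) → (∀ p ∈ DE, c2 p.1 ≠ p.2) →
        (c1 (of K * z) = I K → ∀ e ∈ E K, c2 (e⁻¹ * z) ≠ I K) →
        ∃ c : FreeGroup ℕ → Fin 4,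
        (∀ p ∈ S, c (of p.2 * p.1) = I p.2 → ∀ e ∈ E p.2, c (e⁻¹ * p.1) ≠ I p.2) ∧
        ∀ p ∈ D, c p.1 ≠ p.2 := by
      intro c1 c2 h1 h2 hd1 hd2 hlink
      refine ⟨fun g => if side K (g * z⁻¹) then c1 g else c2 g, ?_, ?_⟩
      · rintro ⟨g, k⟩ hp
        by_cases hpz : (g, k) = (z, K)
        · obtain ⟨rfl, rfl⟩ := Prod.mk.inj hpz
          intro hc e he
          simp only at hc ⊢
          rw [if_pos hsy] at hc
          rw [if_neg (by rw [hclos k le_rfl e he]; exact hsz)]
          exact hlink hc e he
        · have hp' : (g, k) ∈ S' := Finset.mem_erase.mpr ⟨hpz, hp⟩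
          have hkK : k ≤ K := hmax (g, k) hp
          intro hc e he
          have hs1 := hstep (g, k) hp'
          have hs2 := hclos k hkK e he g
          simp only at hs1 hc ⊢
          by_cases hs : side K (g * z⁻¹)
          · rw [if_pos (hs1.mpr hs)] at hc
            rw [if_pos (hs2.mpr hs)]
            exact h1 (g, k) hp' hc e he
          · rw [if_neg (fun h => hs (hs1.mp h))] at hc
            rw [if_neg (fun h => hs (hs2.mp h))]
            exact h2 (g, k) hp' hc e he
      · rintro ⟨g, j⟩ hp
        simp only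
        by_cases hs : side K (g * z⁻¹)
        · rw [if_pos hs]
          exact hd1 (g, j) (Finset.mem_filter.mpr ⟨hp, hs⟩)
        · rw [if_neg hs]
          exact hd2 (g, j) (Finset.mem_filter.mpr ⟨hp, hs⟩)
    -- first alternative
    by_cases hA : (insert (of K * z, I K) Dy).card +
        ((insert (of K * z, I K) Dy).image Prod.snd).card ≤ 7
    · obtain ⟨c1, h1, hd1⟩ := ih S' hS'card _ hA
      obtain ⟨c2, h2, hd2⟩ := ih S' hS'card DE (by omega)
      refine glue c1 c2 h1 h2 (fun p hp => hd1 p (Finset.mem_insert_of_mem hp)) hd2 ?_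
      intro hc
      exact absurd hc (hd1 _ (Finset.mem_insert_self _ _))
    · -- second alternative
      have hA1 : (insert (of K * z, I K) Dy).card ≤ Dy.card + 1 := Finset.card_insert_le _ _
      have hA2 : ((insert (of K * z, I K) Dy).image Prod.snd).card
          ≤ (Dy.image Prod.snd).card + 1 := by
        rw [Finset.image_insert]
        exact Finset.card_insert_le _ _
      set R : Finset (FreeGroup ℕ × Fin 4) := (E K).image (fun e => (e⁻¹ * z, I K)) with hR
      have hRcard : R.card ≤ 4 := le_trans Finset.card_image_le (hcard K)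
      have hRcol : (R.image Prod.snd).card ≤ 1 := by
        rw [Finset.card_le_one]
        intro a ha b hb
        simp only [hR, Finset.mem_image] at ha hb
        obtain ⟨_, ⟨_, _, rfl⟩, rfl⟩ := ha
        obtain ⟨_, ⟨_, _, rfl⟩, rfl⟩ := hb
        rfl
      have hB1 : (DE ∪ R).card ≤ DE.card + R.card := Finset.card_union_le _ _
      have hB2 : ((DE ∪ R).image Prod.snd).card ≤ (DE.image Prod.snd).card +
          (R.image Prod.snd).card := by
        rw [Finset.image_union]
        exact Finset.card_union_le _ _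
      have hB3 : (DE.image Prod.snd).card ≤ DE.card := Finset.card_image_le
      obtain ⟨c2, h2, hd2⟩ := ih S' hS'card (DE ∪ R) (by omega)
      obtain ⟨c1, h1, hd1⟩ := ih S' hS'card Dy (by omega)
      refine glue c1 c2 h1 h2 hd1 (fun p hp => hd2 p (Finset.mem_union_left _ hp)) ?_
      intro _ e he
      exact hd2 (e⁻¹ * z, I K) (Finset.mem_union_right _
        (Finset.mem_image.mpr ⟨e, he, rfl⟩))

theorem exists_colouring (E : ℕ → Finset (FreeGroup ℕ)) (I : ℕ → Fin 4)
    (hE : ∀ k, ∀ e ∈ E k, e ∈ Subgroup.closure (of '' {j : ℕ | j < k}))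
    (hcard : ∀ k, (E k).card ≤ 4) :
    ∃ c : FreeGroup ℕ → Fin 4, ∀ p : FreeGroup ℕ × ℕ,
      c (of p.2 * p.1) = I p.2 → ∀ e ∈ E p.2, c (e⁻¹ * p.1) ≠ I p.2 := by
  classical
  let T : FreeGroup ℕ × ℕ → Set (FreeGroup ℕ → Fin 4) := fun p =>
    {c | c (of p.2 * p.1) = I p.2 → ∀ e ∈ E p.2, c (e⁻¹ * p.1) ≠ I p.2}
  have hclosed : ∀ p, IsClosed (T p) := by
    intro p
    have : T p = ⋂ e ∈ E p.2, (fun c : FreeGroup ℕ → Fin 4 =>
        (c (of p.2 * p.1), c (e⁻¹ * p.1))) ⁻¹' {q | q.1 = I p.2 → q.2 ≠ I p.2} := by
      ext c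
      simp only [T, Set.mem_ofPred_eq, Set.mem_iInter, Set.mem_preimage]
      constructor
      · intro h e he h1
        exact h h1 e he
      · intro h h1 e he
        exact h e he h1
    rw [this]
    refine isClosed_biInter (fun e _ => ?_)
    refine IsClosed.preimage ?_ (isClosed_discrete _)
    exact (continuous_apply _).prodMk (continuous_apply _)
  have hcomp : IsCompact (Set.univ : Set (FreeGroup ℕ → Fin 4)) := isCompact_univ
  have := hcomp.inter_iInter_nonempty T hclosed (by
    intro u
    obtain ⟨c, hc, _⟩ := finite_sat E I hE hcard u.card u rfl ∅ (by simp)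
    refine ⟨c, Set.mem_univ _, ?_⟩
    simp only [Set.mem_iInter]
    intro p hp
    exact hc p hp)
  obtain ⟨c, _, hc⟩ := this
  refine ⟨c, fun p => ?_⟩
  exact Set.mem_iInter.mp hc p

lemma closure_mono_lt {M N : ℕ} (h : M ≤ N) {g : FreeGroup ℕ}
    (hg : g ∈ Subgroup.closure (of '' {j : ℕ | j < M})) :
    g ∈ Subgroup.closure (of '' {j : ℕ | j < N}) := by
  refine Subgroup.closure_mono (Set.image_mono ?_) hg
  intro j hj
  have hj' : j < M := hj
  show j < N
  omega

lemma exists_bound (g : FreeGroup ℕ) :
    ∃ M : ℕ, g ∈ Subgroup.closure (of '' {j : ℕ | j < M}) := by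
  have hg : g ∈ Subgroup.closure (Set.range (of : ℕ → FreeGroup ℕ)) := by
    rw [FreeGroup.closure_range_of]
    exact Subgroup.mem_top g
  induction hg using Subgroup.closure_induction with
  | mem x hx =>
    obtain ⟨j, rfl⟩ := hx
    exact ⟨j + 1, Subgroup.subset_closure ⟨j, Nat.lt_succ_self j, rfl⟩⟩
  | one => exact ⟨0, Subgroup.one_mem _⟩
  | mul x y _ _ hx hy =>
    obtain ⟨M, hM⟩ := hx
    obtain ⟨N, hN⟩ := hy
    exact ⟨max M N, Subgroup.mul_mem _ (closure_mono_lt (le_max_left _ _) hM)
      (closure_mono_lt (le_max_right _ _) hN)⟩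
  | inv x _ hx =>
    obtain ⟨M, hM⟩ := hx
    exact ⟨M, Subgroup.inv_mem _ hM⟩

lemma exists_bound_finset (F : Finset (FreeGroup ℕ)) :
    ∃ M : ℕ, ∀ g ∈ F, g ∈ Subgroup.closure (of '' {j : ℕ | j < M}) := by
  classical
  induction F using Finset.induction_on with
  | empty => exact ⟨0, by simp⟩
  | insert a s _ ih =>
    obtain ⟨M, hM⟩ := ih
    obtain ⟨N, hN⟩ := exists_bound a
    refine ⟨max M N, ?_⟩
    intro g hg
    rcases Finset.mem_insert.mp hg with rfl | hg
    · exact closure_mono_lt (le_max_right _ _) hN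
    · exact closure_mono_lt (le_max_left _ _) (hM g hg)

/-- The main statement: a 4-colouring of the free group of countable rank such that for every
colour `i` and every set `F` of at most four elements, some `t` moves all translates of the colour
class by elements of `F⁻¹` off the colour class. -/
theorem main : ∃ c : FreeGroup ℕ → Fin 4, ∀ (i : Fin 4) (F : Finset (FreeGroup ℕ)), F.card ≤ 4 →
    ∃ t : FreeGroup ℕ, ∀ z, c (t * z) = i → ∀ e ∈ F, c (e⁻¹ * z) ≠ i := by
  classical
  have hcount : Countable (FreeGroup ℕ) := FreeGroup.toWord_injective.countable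
  obtain ⟨f, hf⟩ := exists_surjective_nat (Finset (FreeGroup ℕ) × Fin 4)
  let E : ℕ → Finset (FreeGroup ℕ) := fun k =>
    if (f (Nat.unpair k).1).1.card ≤ 4 ∧
      (∀ e ∈ (f (Nat.unpair k).1).1, e ∈ Subgroup.closure (of '' {j : ℕ | j < k}))
    then (f (Nat.unpair k).1).1 else ∅
  let I : ℕ → Fin 4 := fun k => (f (Nat.unpair k).1).2
  have hE : ∀ k, ∀ e ∈ E k, e ∈ Subgroup.closure (of '' {j : ℕ | j < k}) := by
    intro k e he
    simp only [E] at he
    split_ifs at he with h
    · exact h.2 e he
    · simp at he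
  have hcard : ∀ k, (E k).card ≤ 4 := by
    intro k
    simp only [E]
    split_ifs with h
    · exact h.1
    · simp
  obtain ⟨c, hc⟩ := exists_colouring E I hE hcard
  refine ⟨c, ?_⟩
  intro i F hF
  obtain ⟨M, hM⟩ := exists_bound_finset F
  obtain ⟨a, ha⟩ := hf (F, i)
  let k := Nat.pair a M
  have hk1 : (Nat.unpair k).1 = a := by simp [k]
  have hkM : M ≤ k := Nat.right_le_pair a M
  have hEk : E k = F := by
    simp only [E]
    rw [hk1, ha, if_pos]
    refine ⟨hF, ?_⟩
    intro e he
    exact closure_mono_lt hkM (hM e he)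
  have hIk : I k = i := by
    simp only [I]
    rw [hk1, ha]
  refine ⟨of k, ?_⟩
  intro z hz e he
  have := hc (z, k)
  simp only [hEk, hIk] at this
  exact this hz e he

end Pool.Agent.H700R3.CoverAAInv
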